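import Pool.Agent.R380.Ury.Amalg
import Pool.Agent.R654.SharpDefs

/-!
The set-up for isometric partial actions on a metric space, and the extension of a partial action
by a free orbit.
-/

namespace Pool.Agent.R380.Ury

open Function Classical Pool.Agent.R654.SharpCore

/-- the set-up of sharp actions for a metric space -/
def setup (X : Type) [MetricSpace X] (k : ℕ) : Setup X k where
  P r := ∀ p ∈ r, ∀ q ∈ r, dist p.1 q.1 = dist p.2 q.2
  mono := fun r s hrs h p hp q hq => h p (hrs hp) q (hrs hq)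
  symm := fun r h p hp q hq => (h _ hp _ hq).symm
  comp := by
    rintro r s hr hs p ⟨y, h1, h2⟩ q ⟨y', h3, h4⟩
    exact (hr _ h1 _ h3).trans (hs _ h2 _ h4)
  refl := by
    intro p hp q hq
    simp only [Set.mem_setOf_eq] at hp hq
    rw [hp, hq]
  fin := by
    intro r h p hp q hq
    exact h {p, q} (by intro z hz; rcases hz with rfl | rfl; exacts [hp, hq])
      (Set.toFinite _) p (by simp) q (by simp)
  T c :=
    { carrier := {σ | ∀ i j, dist (c (σ i)) (c (σ j)) = dist (c i) (c j)}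
      mul_mem' := by
        intro a b ha hb i j
        simp only [Set.mem_setOf_eq, Equiv.Perm.coe_mul, Function.comp] at *
        rw [ha, hb]
      one_mem' := by intro i j; rfl
      inv_mem' := by
        intro a ha i j
        have := ha (a⁻¹ i) (a⁻¹ j)
        simpa using this.symm }
  T_sub := by
    rintro c hc σ hσ _ ⟨m, rfl⟩ _ ⟨n, rfl⟩
    exact (hσ m n).symm
  T_inv := by
    intro b c hb hc h
    have key : ∀ i j, dist (b i) (b j) = dist (c i) (c j) := fun i j =>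
      h (b i, c i) ⟨i, rfl⟩ (b j, c j) ⟨j, rfl⟩
    ext σ
    constructor
    · intro hσ i j
      rw [← key, ← key]; exact hσ i j
    · intro hσ i j
      rw [key, key]; exact hσ i j

variable {X : Type} [MetricSpace X] {k : ℕ}

theorem mem_T (c : Fin k → X) (σ : Equiv.Perm (Fin k)) :
    σ ∈ (setup X k).T c ↔ ∀ i j, dist (c (σ i)) (c (σ j)) = dist (c i) (c j) := Iff.rfl

theorem P_def (r : Set (X × X)) :
    (setup X k).P r ↔ ∀ p ∈ r, ∀ q ∈ r, dist p.1 q.1 = dist p.2 q.2 := Iff.rfl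

theorem act_dist (A : PAct (setup X k)) {γ : Equiv.Perm (Fin k)} (hγ : γ ∈ (setup X k).T A.c)
    {z z' : X} (hz : z ∈ A.D) (hz' : z' ∈ A.D) : dist (A.act γ z) (A.act γ z') = dist z z' :=
  (A.pres γ hγ (z, A.act γ z) ⟨hz, rfl⟩ (z', A.act γ z') ⟨hz', rfl⟩).symm

theorem act_inv_act (A : PAct (setup X k)) {γ : Equiv.Perm (Fin k)} (hγ : γ ∈ (setup X k).T A.c)
    {z : X} (hz : z ∈ A.D) : A.act γ⁻¹ (A.act γ z) = z := by
  rw [← A.mul γ⁻¹ (inv_mem hγ) γ hγ z hz, inv_mul_cancel, A.one z hz]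

theorem act_act_inv (A : PAct (setup X k)) {γ : Equiv.Perm (Fin k)} (hγ : γ ∈ (setup X k).T A.c)
    {z : X} (hz : z ∈ A.D) : A.act γ (A.act γ⁻¹ z) = z := by
  rw [← A.mul γ hγ γ⁻¹ (inv_mem hγ) z hz, mul_inv_cancel, A.one z hz]

/-- Extension of a partial action by a free orbit with invariant distances. -/
theorem extend (A : PAct (setup X k)) (y : Equiv.Perm (Fin k) → X)
    (hnew : ∀ γ ∈ (setup X k).T A.c, y γ ∉ A.D)
    (hinj : ∀ γ ∈ (setup X k).T A.c, ∀ δ ∈ (setup X k).T A.c, y γ = y δ → γ = δ)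
    (h1 : ∀ γ ∈ (setup X k).T A.c, ∀ δ ∈ (setup X k).T A.c, ∀ z ∈ A.D,
      dist (y (δ * γ)) (A.act δ z) = dist (y γ) z)
    (h2 : ∀ γ ∈ (setup X k).T A.c, ∀ γ' ∈ (setup X k).T A.c, ∀ δ ∈ (setup X k).T A.c,
      dist (y (δ * γ)) (y (δ * γ')) = dist (y γ) (y γ')) :
    ∃ B : PAct (setup X k), Ext (setup X k) A B (y 1) ∧
      ∀ γ ∈ (setup X k).T A.c, B.act γ (y 1) = y γ := by
  let act : Equiv.Perm (Fin k) → X → X := fun γ z =>
    if z ∈ A.D then A.act γ z
    else if h : ∃ δ ∈ (setup X k).T A.c, z = y δ then y (γ * h.choose) else z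
  have actD : ∀ γ, ∀ z ∈ A.D, act γ z = A.act γ z := fun γ z hz => if_pos hz
  have actY : ∀ γ, ∀ δ ∈ (setup X k).T A.c, act γ (y δ) = y (γ * δ) := by
    intro γ δ hδ
    have h : ∃ δ' ∈ (setup X k).T A.c, y δ = y δ' := ⟨δ, hδ, rfl⟩
    have h3 : h.choose = δ := (hinj δ hδ _ h.choose_spec.1 h.choose_spec.2).symm
    simp only [act, if_neg (hnew δ hδ), dif_pos h]
    rw [h3]
  let DB : Finset X := A.D ∪ (Finset.univ.filter (fun γ => γ ∈ (setup X k).T A.c)).image y
  have memDB : ∀ z, z ∈ DB ↔ z ∈ A.D ∨ ∃ γ ∈ (setup X k).T A.c, z = y γ := by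
    intro z
    simp only [DB, Finset.mem_union, Finset.mem_image, Finset.mem_filter, Finset.mem_univ, true_and]
    constructor
    · rintro (h | ⟨γ, hγ, rfl⟩)
      · exact Or.inl h
      · exact Or.inr ⟨γ, hγ, rfl⟩
    · rintro (h | ⟨γ, hγ, rfl⟩)
      · exact Or.inl h
      · exact Or.inr ⟨γ, hγ, rfl⟩
  let B : PAct (setup X k) :=
    { c := A.c
      inj := A.inj
      D := DB
      act := act
      c_mem := fun m => (memDB _).2 (Or.inl (A.c_mem m))
      map_mem := by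
        intro γ hγ x hx
        rcases (memDB x).1 hx with h | ⟨δ, hδ, rfl⟩
        · rw [actD γ x h]; exact (memDB _).2 (Or.inl (A.map_mem γ hγ x h))
        · rw [actY γ δ hδ]; exact (memDB _).2 (Or.inr ⟨γ * δ, mul_mem hγ hδ, rfl⟩)
      one := by
        intro x hx
        rcases (memDB x).1 hx with h | ⟨δ, hδ, rfl⟩
        · rw [actD 1 x h]; exact A.one x h
        · rw [actY 1 δ hδ, one_mul]
      mul := by
        intro γ hγ δ hδ x hx
        rcases (memDB x).1 hx with h | ⟨ε, hε, rfl⟩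
        · rw [actD _ x h, actD δ x h, actD γ _ (A.map_mem δ hδ x h)]
          exact A.mul γ hγ δ hδ x h
        · rw [actY _ ε hε, actY δ ε hε, actY γ _ (mul_mem hδ hε), mul_assoc]
      on_c := by
        intro γ hγ m
        rw [actD γ _ (A.c_mem m)]; exact A.on_c γ hγ m
      free := by
        intro γ hγ hne x hx hfix
        rcases (memDB x).1 hx with h | ⟨δ, hδ, rfl⟩
        · rw [actD γ x h] at hfix; exact A.free γ hγ hne x h hfix
        · rw [actY γ δ hδ] at hfix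
          have := hinj _ (mul_mem hγ hδ) _ hδ hfix
          exact absurd (mul_eq_right.1 this) hne
      pres := by
        rintro γ hγ ⟨a, a'⟩ ⟨ha, rfl : a' = act γ a⟩ ⟨b, b'⟩ ⟨hb, rfl : b' = act γ b⟩
        simp only at ha hb ⊢
        rcases (memDB a).1 ha with h | ⟨δ, hδ, rfl⟩
        · rcases (memDB b).1 hb with h' | ⟨ε, hε, rfl⟩
          · rw [actD γ a h, actD γ b h', act_dist A hγ h h']
          · rw [actD γ a h, actY γ ε hε, dist_comm, dist_comm (A.act γ a), h1 ε hε γ hγ a h]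
        · rcases (memDB b).1 hb with h' | ⟨ε, hε, rfl⟩
          · rw [actD γ b h', actY γ δ hδ, h1 δ hδ γ hγ b h']
          · rw [actY γ δ hδ, actY γ ε hε, h2 δ hδ ε hε γ hγ] }
  have hBy : ∀ γ ∈ (setup X k).T A.c, B.act γ (y 1) = y γ := by
    intro γ _
    show act γ (y 1) = y γ
    rw [actY γ 1 (one_mem _), mul_one]
  refine ⟨B, ⟨rfl, fun γ _ x hx => actD γ x hx, fun x => ?_, fun γ hγ => ?_, fun γ hγ δ hδ h => ?_⟩, hBy⟩
  · show x ∈ DB ↔ _
    rw [memDB]
    constructor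
    · rintro (h | ⟨γ, hγ, rfl⟩)
      · exact Or.inl h
      · exact Or.inr ⟨γ, hγ, (hBy γ hγ).symm⟩
    · rintro (h | ⟨γ, hγ, rfl⟩)
      · exact Or.inl h
      · exact Or.inr ⟨γ, hγ, hBy γ hγ⟩
  · rw [hBy γ hγ]; exact hnew γ hγ
  · rw [hBy γ hγ, hBy δ hδ] at h
    exact hinj γ hγ δ hδ h

end Pool.Agent.R380.Ury
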