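import Mathlib

/-!
The rational Urysohn space: extension property and free amalgamation of finitely many points
over a finite base.
-/

namespace Pool.Agent.R380.Ury

open Function Classical

/-- the defining properties of the rational Urysohn space -/
structure UryS (X : Type) [MetricSpace X] : Prop where
  countable : Countable X
  rational : ∀ x y : X, ∃ q : ℚ, dist x y = q
  homogeneous : ∀ (A : Finset X) (f : X → X), (∀ x ∈ A, ∀ y ∈ A, dist (f x) (f y) = dist x y) →
    ∃ g : X ≃ᵢ X, ∀ x ∈ A, g x = f x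
  universal : ∀ (n : ℕ) (d : Fin n → Fin n → ℚ), (∀ i, d i i = 0) → (∀ i j, i ≠ j → 0 < d i j) →
    (∀ i j, d i j = d j i) → (∀ i j l, d i l ≤ d i j + d j l) →
    ∃ e : Fin n → X, ∀ i j, dist (e i) (e j) = d i j

variable {X : Type} [MetricSpace X]

theorem ext_prop (hX : UryS X) {ι : Type} [Finite ι] (d : ι → ι → ℝ)
    (hrat : ∀ i j, ∃ q : ℚ, d i j = q) (h0 : ∀ i, d i i = 0) (hpos : ∀ i j, i ≠ j → 0 < d i j)
    (hs : ∀ i j, d i j = d j i) (ht : ∀ i j l, d i l ≤ d i j + d j l) (J : Set ι) (r : ι → X)
    (hr : ∀ i ∈ J, ∀ j ∈ J, dist (r i) (r j) = d i j) :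
    ∃ e : ι → X, (∀ i j, dist (e i) (e j) = d i j) ∧ ∀ i ∈ J, e i = r i := by
  obtain ⟨n, ⟨eqv⟩⟩ := Finite.exists_equiv_fin ι
  choose q hq using hrat
  obtain ⟨e0, he0⟩ := hX.universal n (fun i j => q (eqv.symm i) (eqv.symm j))
    (fun i => by have := hq (eqv.symm i) (eqv.symm i); rw [h0] at this; exact_mod_cast this.symm)
    (fun i j hij => by
      have := hpos (eqv.symm i) (eqv.symm j) (fun h => hij (eqv.symm.injective h))
      rw [hq] at this; exact_mod_cast this)
    (fun i j => by
      have := hs (eqv.symm i) (eqv.symm j)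
      rw [hq, hq] at this; exact_mod_cast this)
    (fun i j l => by
      have := ht (eqv.symm i) (eqv.symm j) (eqv.symm l)
      rw [hq, hq, hq] at this; exact_mod_cast this)
  have he1 : ∀ i j, dist (e0 (eqv i)) (e0 (eqv j)) = d i j := by
    intro i j
    rw [he0]; simp [hq]
  have hinj : Injective (fun i => e0 (eqv i)) := by
    intro i j hij
    by_contra hne
    have h1 := hpos i j hne
    rw [← he1] at h1
    have : dist (e0 (eqv i)) (e0 (eqv j)) = 0 := by
      have : e0 (eqv i) = e0 (eqv j) := hij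
      rw [this, dist_self]
    linarith
  haveI : Fintype ι := Fintype.ofFinite ι
  let A : Finset X := (Finset.univ.filter (fun i => i ∈ J)).image (fun i => e0 (eqv i))
  let f : X → X := fun x => if h : ∃ i ∈ J, e0 (eqv i) = x then r h.choose else x
  have hf : ∀ i ∈ J, f (e0 (eqv i)) = r i := by
    intro i hi
    have h : ∃ i' ∈ J, e0 (eqv i') = e0 (eqv i) := ⟨i, hi, rfl⟩
    have h2 : h.choose = i := hinj h.choose_spec.2
    simp only [f, dif_pos h]
    rw [h2]
  obtain ⟨g, hg⟩ := hX.homogeneous A f (by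
    intro x hx y hy
    simp only [A, Finset.mem_image, Finset.mem_filter, Finset.mem_univ, true_and] at hx hy
    obtain ⟨i, hi, rfl⟩ := hx
    obtain ⟨j, hj, rfl⟩ := hy
    rw [hf i hi, hf j hj, he1, hr i hi j hj])
  refine ⟨fun i => g (e0 (eqv i)), fun i j => ?_, fun i hi => ?_⟩
  · rw [g.dist_eq, he1]
  · show g (e0 (eqv i)) = r i
    rw [hg _ (by simp only [A, Finset.mem_image, Finset.mem_filter, Finset.mem_univ, true_and]; exact ⟨i, hi, rfl⟩), hf i hi]

/-- free amalgamation of blocks of points over the finite base `D` inside the finite set `S`. -/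
theorem amalgam (hX : UryS X) (S D : Finset X) (hD : D.Nonempty) (hDS : D ⊆ S) {J : Type} [Finite J]
    (blk : J → J → Prop) (hrefl : ∀ i, blk i i) (hsymm : ∀ i j, blk i j → blk j i)
    (htrans : ∀ i j l, blk i j → blk j l → blk i l)
    (g : J → X → ℝ) (e : J → J → ℝ)
    (hgr : ∀ i, ∀ z ∈ D, ∃ q : ℚ, g i z = q) (her : ∀ i j, blk i j → ∃ q : ℚ, e i j = q)
    (hgp : ∀ i, ∀ z ∈ D, 0 < g i z)
    (hg1 : ∀ i, ∀ z ∈ D, ∀ z' ∈ D, g i z ≤ g i z' + dist z z')
    (hg2 : ∀ i, ∀ z ∈ D, ∀ z' ∈ D, dist z z' ≤ g i z + g i z')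
    (he0 : ∀ i, e i i = 0) (hep : ∀ i j, blk i j → i ≠ j → 0 < e i j)
    (hes : ∀ i j, blk i j → e i j = e j i)
    (het : ∀ i j l, blk i j → blk j l → e i l ≤ e i j + e j l)
    (hge1 : ∀ i j, blk i j → ∀ z ∈ D, g i z ≤ g j z + e i j)
    (hge2 : ∀ i j, blk i j → ∀ z ∈ D, e i j ≤ g i z + g j z) :
    ∃ y : J → X, (∀ i, ∀ s ∈ S, IsLeast {t | ∃ z ∈ D, t = g i z + dist z s} (dist (y i) s)) ∧
      (∀ i j, blk i j → dist (y i) (y j) = e i j) ∧
      (∀ i j, ¬ blk i j → IsLeast {t | ∃ z ∈ D, t = g i z + g j z} (dist (y i) (y j))) := by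
  -- the minimum
  let m1 : J → X → ℝ := fun i s => D.inf' hD (fun z => g i z + dist z s)
  let m2 : J → J → ℝ := fun i j => D.inf' hD (fun z => g i z + g j z)
  have m1le : ∀ i s, ∀ z ∈ D, m1 i s ≤ g i z + dist z s := fun i s z hz =>
    Finset.inf'_le (fun z => g i z + dist z s) hz
  have m2le : ∀ i j, ∀ z ∈ D, m2 i j ≤ g i z + g j z := fun i j z hz =>
    Finset.inf'_le (fun z => g i z + g j z) hz
  have m1at : ∀ i s, ∃ z ∈ D, m1 i s = g i z + dist z s := fun i s =>
    Finset.exists_mem_eq_inf' hD (fun z => g i z + dist z s)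
  have m2at : ∀ i j, ∃ z ∈ D, m2 i j = g i z + g j z := fun i j =>
    Finset.exists_mem_eq_inf' hD (fun z => g i z + g j z)
  have m2s : ∀ i j, m2 i j = m2 j i := by
    intro i j
    apply le_antisymm
    · obtain ⟨z, hz, h⟩ := m2at j i
      rw [h, add_comm]; exact m2le i j z hz
    · obtain ⟨z, hz, h⟩ := m2at i j
      rw [h, add_comm]; exact m2le j i z hz
  let d : ({x // x ∈ S} ⊕ J) → ({x // x ∈ S} ⊕ J) → ℝ := fun a b =>
    match a, b with
    | Sum.inl s, Sum.inl s' => dist s.1 s'.1
    | Sum.inl s, Sum.inr i => m1 i s.1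
    | Sum.inr i, Sum.inl s => m1 i s.1
    | Sum.inr i, Sum.inr j => if blk i j then e i j else m2 i j
  have d1 : ∀ s s' : {x // x ∈ S}, d (Sum.inl s) (Sum.inl s') = dist s.1 s'.1 := fun _ _ => rfl
  have d2 : ∀ (s : {x // x ∈ S}) i, d (Sum.inl s) (Sum.inr i) = m1 i s.1 := fun _ _ => rfl
  have d3 : ∀ (s : {x // x ∈ S}) i, d (Sum.inr i) (Sum.inl s) = m1 i s.1 := fun _ _ => rfl
  have d4 : ∀ i j, blk i j → d (Sum.inr i) (Sum.inr j) = e i j := fun i j h => if_pos h
  have d5 : ∀ i j, ¬ blk i j → d (Sum.inr i) (Sum.inr j) = m2 i j := fun i j h => if_neg h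
  have hDrat : ∀ x y : X, ∃ q : ℚ, dist x y = q := hX.rational
  obtain ⟨y, hy1, hy2⟩ := ext_prop hX d
    (by
      rintro (s | i) (s' | j)
      · exact hDrat _ _
      · rw [d2]
        obtain ⟨z, hz, h⟩ := m1at j s.1
        obtain ⟨q1, h1⟩ := hgr j z hz
        obtain ⟨q2, h2⟩ := hDrat z s.1
        exact ⟨q1 + q2, by rw [h, h1, h2]; push_cast; ring⟩
      · rw [d3]
        obtain ⟨z, hz, h⟩ := m1at i s'.1
        obtain ⟨q1, h1⟩ := hgr i z hz
        obtain ⟨q2, h2⟩ := hDrat z s'.1
        exact ⟨q1 + q2, by rw [h, h1, h2]; push_cast; ring⟩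
      · by_cases hb : blk i j
        · rw [d4 i j hb]; exact her i j hb
        · rw [d5 i j hb]
          obtain ⟨z, hz, h⟩ := m2at i j
          obtain ⟨q1, h1⟩ := hgr i z hz
          obtain ⟨q2, h2⟩ := hgr j z hz
          exact ⟨q1 + q2, by rw [h, h1, h2]; push_cast; ring⟩)
    (by
      rintro (s | i)
      · rw [d1, dist_self]
      · rw [d4 i i (hrefl i), he0])
    (by
      rintro (s | i) (s' | j) hne
      · rw [d1]
        exact dist_pos.2 (fun h => hne (by rw [Subtype.ext h]))
      · rw [d2]
        obtain ⟨z, hz, h⟩ := m1at j s.1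
        rw [h]
        have := hgp j z hz
        have := @dist_nonneg _ _ z s.1
        linarith
      · rw [d3]
        obtain ⟨z, hz, h⟩ := m1at i s'.1
        rw [h]
        have := hgp i z hz
        have := @dist_nonneg _ _ z s'.1
        linarith
      · by_cases hb : blk i j
        · rw [d4 i j hb]; exact hep i j hb (fun h => hne (by rw [h]))
        · rw [d5 i j hb]
          obtain ⟨z, hz, h⟩ := m2at i j
          rw [h]
          have := hgp i z hz
          have := hgp j z hz
          linarith)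
    (by
      rintro (s | i) (s' | j)
      · rw [d1, d1, dist_comm]
      · exact (d2 _ _).trans (d3 _ _).symm
      · exact (d3 _ _).trans (d2 _ _).symm
      · by_cases hb : blk i j
        · rw [d4 i j hb, d4 j i (hsymm i j hb), hes i j hb]
        · rw [d5 i j hb, d5 j i (fun h => hb (hsymm j i h)), m2s])
    (by
      rintro (s | i) (t | j) (u | l)
      · rw [d1, d1, d1]; exact dist_triangle _ _ _
      · -- s t l : m1 l s ≤ dist s t + m1 l t
        rw [d2, d1, d2]
        obtain ⟨z, hz, h⟩ := m1at l t.1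
        have h1 := m1le l s.1 z hz
        have h2 := dist_triangle z t.1 s.1
        have h3 := dist_comm t.1 s.1
        rw [h]; linarith
      · -- s j u : dist s u ≤ m1 j s + m1 j u
        rw [d1, d2, d3]
        obtain ⟨z, hz, h⟩ := m1at j s.1
        obtain ⟨z', hz', h'⟩ := m1at j u.1
        have h1 := hg2 j z hz z' hz'
        have h2 := dist_triangle4 s.1 z z' u.1
        have h3 := dist_comm z s.1
        rw [h, h']; linarith
      · -- s j l : m1 l s ≤ m1 j s + d j l
        rw [d2, d2]
        obtain ⟨z, hz, h⟩ := m1at j s.1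
        by_cases hb : blk j l
        · rw [d4 j l hb, h]
          have h1 := m1le l s.1 z hz
          have h2 := hge1 l j (hsymm _ _ hb) z hz
          have h3 := hes j l hb
          linarith
        · rw [d5 j l hb, h]
          obtain ⟨z', hz', h'⟩ := m2at j l
          rw [h']
          have h1 := m1le l s.1 z' hz'
          have h2 := hg2 j z hz z' hz'
          have h3 := dist_triangle z' z s.1
          have h4 := dist_comm z' z
          linarith
      · -- i t u : m1 i u ≤ m1 i t + dist t u
        rw [d3, d3, d1]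
        obtain ⟨z, hz, h⟩ := m1at i t.1
        have h1 := m1le i u.1 z hz
        have h2 := dist_triangle z t.1 u.1
        rw [h]; linarith
      · -- i t l : d i l ≤ m1 i t + m1 l t
        rw [d3, d2]
        obtain ⟨z, hz, h⟩ := m1at i t.1
        obtain ⟨z', hz', h'⟩ := m1at l t.1
        have h5 := dist_triangle z' t.1 z
        have h6 := dist_comm t.1 z
        rw [h, h']
        by_cases hb : blk i l
        · rw [d4 i l hb]
          have h1 := hge2 i l hb z hz
          have h2 := hg1 l z hz z' hz'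
          have h3 := dist_comm z z'
          linarith
        · rw [d5 i l hb]
          have h1 := m2le i l z hz
          have h2 := hg1 l z hz z' hz'
          have h3 := dist_comm z z'
          linarith
      · -- i j u : m1 i u ≤ d i j + m1 j u
        rw [d3, d3]
        obtain ⟨z, hz, h⟩ := m1at j u.1
        by_cases hb : blk i j
        · rw [d4 i j hb, h]
          have h1 := m1le i u.1 z hz
          have h2 := hge1 i j hb z hz
          linarith
        · rw [d5 i j hb, h]
          obtain ⟨z', hz', h'⟩ := m2at i j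
          rw [h']
          have h1 := m1le i u.1 z' hz'
          have h2 := hg2 j z hz z' hz'
          have h3 := dist_triangle z' z u.1
          have h4 := dist_comm z' z
          linarith
      · -- i j l
        by_cases hij : blk i j
        · by_cases hjl : blk j l
          · rw [d4 i j hij, d4 j l hjl, d4 i l (htrans _ _ _ hij hjl)]
            exact het i j l hij hjl
          · have hil : ¬ blk i l := fun h => hjl (htrans _ _ _ (hsymm _ _ hij) h)
            rw [d4 i j hij, d5 j l hjl, d5 i l hil]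
            obtain ⟨z, hz, h⟩ := m2at j l
            rw [h]
            have h1 := m2le i l z hz
            have h2 := hge1 i j hij z hz
            linarith
        · by_cases hjl : blk j l
          · have hil : ¬ blk i l := fun h => hij (htrans _ _ _ h (hsymm _ _ hjl))
            rw [d5 i j hij, d4 j l hjl, d5 i l hil]
            obtain ⟨z, hz, h⟩ := m2at i j
            rw [h]
            have h1 := m2le i l z hz
            have h2 := hge1 l j (hsymm _ _ hjl) z hz
            have h3 := hes j l hjl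
            linarith
          · rw [d5 i j hij, d5 j l hjl]
            obtain ⟨z, hz, h⟩ := m2at i j
            obtain ⟨z', hz', h'⟩ := m2at j l
            rw [h, h']
            have h2 := hg2 j z hz z' hz'
            have h3 := hg1 l z hz z' hz'
            by_cases hil : blk i l
            · rw [d4 i l hil]
              have h1 := hge2 i l hil z hz
              linarith
            · rw [d5 i l hil]
              have h1 := m2le i l z hz
              linarith)
    (Set.range Sum.inl) (Sum.elim Subtype.val (fun _ => hD.choose))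
    (by
      rintro _ ⟨s, rfl⟩ _ ⟨t, rfl⟩
      rfl)
  refine ⟨fun i => y (Sum.inr i), fun i s hs => ?_, fun i j hb => ?_, fun i j hb => ?_⟩
  · have h1 : y (Sum.inl ⟨s, hs⟩) = s := hy2 _ ⟨⟨s, hs⟩, rfl⟩
    have h2 : dist (y (Sum.inr i)) s = m1 i s := by
      conv_lhs => rw [← h1]
      rw [hy1]
    show IsLeast _ (dist (y (Sum.inr i)) s)
    rw [h2]
    refine ⟨m1at i s, ?_⟩
    rintro _ ⟨z, hz, rfl⟩
    exact m1le i s z hz
  · show dist (y (Sum.inr i)) (y (Sum.inr j)) = _
    rw [hy1, d4 i j hb]
  · show IsLeast _ (dist (y (Sum.inr i)) (y (Sum.inr j)))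
    rw [hy1, d5 i j hb]
    refine ⟨m2at i j, ?_⟩
    rintro _ ⟨z, hz, rfl⟩
    exact m2le i j z hz

/-- for a point of the base the distance is the prescribed one -/
theorem least_base {D : Finset X} {g : X → ℝ} {s : X} {t : ℝ} (hs : s ∈ D)
    (hg1 : ∀ z ∈ D, ∀ z' ∈ D, g z ≤ g z' + dist z z')
    (h : IsLeast {t | ∃ z ∈ D, t = g z + dist z s} t) : t = g s := by
  apply le_antisymm
  · have := h.2 ⟨s, hs, rfl⟩
    simpa using this
  · obtain ⟨z, hz, h1⟩ := h.1
    rw [h1]
    have := hg1 s hs z hz
    rw [dist_comm] at this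
    exact this

end Pool.Agent.R380.Ury
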