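import Pool.Agent.R380.Ury.Good

/-!
From the conclusion of the core theorem to structurally sharply `k`-transitive actions on the
rational Urysohn space.
-/

namespace Pool.Agent.R380.Ury

open Function Classical Pool.Agent.R654.SharpCore

variable {X : Type} [MetricSpace X] {k : ℕ}

theorem infinite (hX : UryS X) : Infinite X := by
  by_contra hfin
  haveI : Finite X := not_infinite_iff_finite.1 hfin
  haveI : Fintype X := Fintype.ofFinite X
  obtain ⟨e, he⟩ := hX.universal (Fintype.card X + 1) (fun i j => if i = j then 0 else 1)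
    (by intro i; simp) (by intro i j h; simp [h]) (by intro i j; simp [eq_comm])
    (by
      intro i j l
      by_cases h1 : i = j
      · by_cases h2 : j = l
        · simp [h1, h2]
        · simp [h1, h2]
      · by_cases h2 : j = l
        · subst h2; simp [h1]
        · rw [if_neg h1, if_neg h2]
          by_cases h3 : i = l
          · rw [if_pos h3]; norm_num
          · rw [if_neg h3]; norm_num)
  have hinj : Injective e := by
    intro i j hij
    by_contra hne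
    have := he i j
    rw [hij, dist_self, if_neg hne] at this
    norm_num at this
  have := Fintype.card_le_of_injective e hinj
  simp at this

theorem admits (G : Subgroup (Equiv.Perm X))
    (h1 : ∀ g ∈ G, (setup X k).P {p | p.2 = g p.1})
    (h2 : ∀ a b : Fin k → X, Injective a → Injective b → (setup X k).P (tup a b) →
      ∃ g ∈ G, ∃ σ : Equiv.Perm (Fin k), ∀ m, g (a m) = b (σ m))
    (h3 : ∀ a : Fin k → X, Injective a → ∃ (ρ : Equiv.Perm (Fin k)) (c : Fin k → X),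
      Injective c ∧ (setup X k).P (tup (a ∘ ρ) c) ∧
      ∀ σ : Equiv.Perm (Fin k), σ ∈ (setup X k).T c ↔ ∃ g ∈ G, ∀ m, g (c m) = c (σ m))
    (h4 : ∀ g ∈ G, ∀ a : Fin k → X, Injective a → (∀ m, g (a m) = a m) → g = 1) :
    ∃ (G : Type) (_ : Group G) (_ : MulAction G X),
      (∀ (g : G) (x y : X), dist (g • x) (g • y) = dist x y) ∧
      ∀ a b : Fin k → X, Injective a → Injective b →
        (∀ i j, dist (a i) (a j) = dist (b i) (b j)) → ∃! g : G, ∀ i, g • a i = b i := by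
  have hiso : ∀ g ∈ G, ∀ x y : X, dist (g x) (g y) = dist x y := fun g hg x y =>
    (h1 g hg (x, g x) rfl (y, g y) rfl).symm
  refine ⟨G, inferInstance, inferInstance, fun g x y => hiso g.1 g.2 x y, ?_⟩
  intro a b ha hb hab
  obtain ⟨g, hg, σ, hσ⟩ := h2 a b ha hb (by
    rintro _ ⟨i, rfl⟩ _ ⟨j, rfl⟩
    exact hab i j)
  have hσT : ∀ i j, dist (b (σ i)) (b (σ j)) = dist (b i) (b j) := by
    intro i j
    rw [← hσ, ← hσ, hiso g hg, hab]
  obtain ⟨ρ, c, hc, hbc, hT⟩ := h3 b hb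
  obtain ⟨g1, hg1, σ1, hσ1⟩ := h2 (b ∘ ρ) c (hb.comp ρ.injective) hc hbc
  -- `g1` maps `b i` to `c (π i)`
  let π : Equiv.Perm (Fin k) := σ1 * ρ⁻¹
  have hπ : ∀ i, g1 (b i) = c (π i) := by
    intro i
    have := hσ1 (ρ⁻¹ i)
    simpa [π] using this
  have hcπ : ∀ i j, dist (c (π i)) (c (π j)) = dist (b i) (b j) := by
    intro i j
    rw [← hπ, ← hπ, hiso g1 hg1]
  have hσc : π * σ⁻¹ * π⁻¹ ∈ (setup X k).T c := by
    rw [mem_T]
    intro i j
    have e1 : ∀ m, (π * σ⁻¹ * π⁻¹) m = π (σ⁻¹ (π⁻¹ m)) := fun _ => rfl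
    rw [e1, e1, hcπ, ← hσT, Equiv.Perm.coe_inv, Equiv.apply_symm_apply, Equiv.apply_symm_apply,
      ← hcπ, Equiv.Perm.coe_inv, Equiv.apply_symm_apply, Equiv.apply_symm_apply]
  obtain ⟨g2, hg2, hg2'⟩ := (hT _).1 hσc
  have hex : ∀ i, (g1⁻¹ * g2 * g1 * g) (a i) = b i := by
    intro i
    show g1⁻¹ (g2 (g1 (g (a i)))) = b i
    rw [hσ, hπ, hg2']
    have e1 : (π * σ⁻¹ * π⁻¹) (π (σ i)) = π i := by simp
    rw [e1, ← hπ]
    simp
  refine ⟨⟨g1⁻¹ * g2 * g1 * g, mul_mem (mul_mem (mul_mem (inv_mem hg1) hg2) hg1) hg⟩, hex, ?_⟩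
  rintro ⟨g', hg'⟩ hg''
  have hg3 : ∀ i, g' (a i) = b i := hg''
  have h5 := h4 ((g1⁻¹ * g2 * g1 * g)⁻¹ * g')
    (mul_mem (inv_mem (mul_mem (mul_mem (mul_mem (inv_mem hg1) hg2) hg1) hg)) hg') a ha (by
      intro m
      show (g1⁻¹ * g2 * g1 * g)⁻¹ (g' (a m)) = a m
      rw [hg3, ← hex m]
      simp)
  apply Subtype.ext
  exact (inv_mul_eq_one.1 h5).symm

end Pool.Agent.R380.Ury
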