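import Pool.Agent.R380.Ury.Act

/-!
The rational Urysohn space satisfies the hypotheses `Good` of the core theorem on sharp actions
for `k = 2` and `k = 3`.
-/

namespace Pool.Agent.R380.Ury

open Function Classical Pool.Agent.R654.SharpCore

variable {X : Type} [MetricSpace X] {k : ℕ}

/-- a common part of the two extension properties -/
theorem orbit_ext (A : PAct (setup X k)) (Y : Equiv.Perm (Fin k) → X)
    (G : Equiv.Perm (Fin k) → X → ℝ) (blk : Equiv.Perm (Fin k) → Equiv.Perm (Fin k) → Prop)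
    (E : Equiv.Perm (Fin k) → Equiv.Perm (Fin k) → ℝ)
    (hG : ∀ γ ∈ (setup X k).T A.c, ∀ z ∈ A.D, dist (Y γ) z = G γ z)
    (hGpos : ∀ γ ∈ (setup X k).T A.c, ∀ z ∈ A.D, 0 < G γ z)
    (hGinv : ∀ γ ∈ (setup X k).T A.c, ∀ δ ∈ (setup X k).T A.c, ∀ z ∈ A.D,
      G (δ * γ) (A.act δ z) = G γ z)
    (hb : ∀ γ γ' δ, blk (δ * γ) (δ * γ') ↔ blk γ γ')
    (hE : ∀ γ γ' δ, E (δ * γ) (δ * γ') = E γ γ')
    (hEpos : ∀ γ γ', γ ≠ γ' → blk γ γ' → 0 < E γ γ')
    (hYE : ∀ γ ∈ (setup X k).T A.c, ∀ γ' ∈ (setup X k).T A.c, blk γ γ' → dist (Y γ) (Y γ') = E γ γ')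
    (hYL : ∀ γ ∈ (setup X k).T A.c, ∀ γ' ∈ (setup X k).T A.c, ¬ blk γ γ' →
      IsLeast {t | ∃ z ∈ A.D, t = G γ z + G γ' z} (dist (Y γ) (Y γ'))) :
    ∃ B : PAct (setup X k), Ext (setup X k) A B (Y 1) ∧
      ∀ γ ∈ (setup X k).T A.c, B.act γ (Y 1) = Y γ := by
  apply extend A Y
  · intro γ hγ hmem
    have h1 := hG γ hγ _ hmem
    have h2 := hGpos γ hγ _ hmem
    rw [dist_self] at h1
    linarith
  · intro γ hγ δ hδ h
    by_contra hne
    by_cases hbl : blk γ δ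
    · have h1 := hYE γ hγ δ hδ hbl
      have h2 := hEpos γ δ hne hbl
      rw [h, dist_self] at h1
      linarith
    · obtain ⟨z, hz, h1⟩ := (hYL γ hγ δ hδ hbl).1
      rw [h, dist_self] at h1
      have h2 := hGpos γ hγ z hz
      have h3 := hGpos δ hδ z hz
      linarith
  · intro γ hγ δ hδ z hz
    rw [hG _ (mul_mem hδ hγ) _ (A.map_mem δ hδ z hz), hG γ hγ z hz, hGinv γ hγ δ hδ z hz]
  · intro γ hγ γ' hγ' δ hδ
    by_cases hbl : blk γ γ'
    · rw [hYE _ (mul_mem hδ hγ) _ (mul_mem hδ hγ') ((hb _ _ _).2 hbl), hYE γ hγ γ' hγ' hbl, hE]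
    · have h1 := hYL _ (mul_mem hδ hγ) _ (mul_mem hδ hγ') (fun h => hbl ((hb _ _ _).1 h))
      have h2 := hYL γ hγ γ' hγ' hbl
      have h3 : {t | ∃ z ∈ A.D, t = G (δ * γ) z + G (δ * γ') z} =
          {t | ∃ z ∈ A.D, t = G γ z + G γ' z} := by
        ext t
        constructor
        · rintro ⟨z, hz, rfl⟩
          refine ⟨A.act δ⁻¹ z, A.map_mem _ (inv_mem hδ) z hz, ?_⟩
          have e1 := hGinv γ hγ δ hδ _ (A.map_mem _ (inv_mem hδ) z hz)
          have e2 := hGinv γ' hγ' δ hδ _ (A.map_mem _ (inv_mem hδ) z hz)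
          rw [act_act_inv A hδ hz] at e1 e2
          rw [e1, e2]
        · rintro ⟨z, hz, rfl⟩
          exact ⟨A.act δ z, A.map_mem _ hδ z hz, by rw [hGinv γ hγ δ hδ z hz, hGinv γ' hγ' δ hδ z hz]⟩
      rw [h3] at h1
      exact h1.unique h2

theorem good_ext1 (hX : UryS X) (hk : 0 < k) (A : PAct (setup X k)) (x : X) (hx : x ∉ A.D)
    (F : Finset X) : ∃ B : PAct (setup X k), Ext (setup X k) A B x ∧ B.act 1 x = x ∧
      ∀ γ ∈ (setup X k).T A.c, γ ≠ 1 → B.act γ x ∉ F := by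
  have hDne : A.D.Nonempty := ⟨_, A.c_mem ⟨0, hk⟩⟩
  let G : Equiv.Perm (Fin k) → X → ℝ := fun γ z => dist x (A.act γ⁻¹ z)
  have hGpos : ∀ γ ∈ (setup X k).T A.c, ∀ z ∈ A.D, 0 < G γ z := by
    intro γ hγ z hz
    apply dist_pos.2
    intro h
    exact hx (h ▸ A.map_mem _ (inv_mem hγ) z hz)
  obtain ⟨y, hy1, -, hy3⟩ := amalgam hX (F ∪ A.D ∪ {x}) A.D hDne
    (by intro z hz; simp [hz]) (J := {γ : Equiv.Perm (Fin k) // γ ∈ (setup X k).T A.c ∧ γ ≠ 1})
    (fun i j => i = j) (fun _ => rfl) (fun _ _ h => h.symm) (fun _ _ _ h h' => h.trans h')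
    (fun i z => G i.1 z) (fun _ _ => 0)
    (fun i z _ => hX.rational _ _) (fun _ _ _ => ⟨0, by simp⟩)
    (fun i z hz => hGpos i.1 i.2.1 z hz)
    (fun i z hz z' hz' => by
      have h1 := act_dist A (inv_mem i.2.1) hz hz'
      have h2 := dist_triangle x (A.act i.1⁻¹ z') (A.act i.1⁻¹ z)
      rw [dist_comm (A.act i.1⁻¹ z')] at h2
      simp only [G]; linarith)
    (fun i z hz z' hz' => by
      have h1 := act_dist A (inv_mem i.2.1) hz hz'
      have h2 := dist_triangle_left (A.act i.1⁻¹ z) (A.act i.1⁻¹ z') x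
      simp only [G]; linarith)
    (fun _ => rfl) (fun _ _ h h' => absurd h h') (fun _ _ _ => rfl) (fun _ _ _ _ _ => by simp)
    (fun i j h z _ => by subst h; simp)
    (fun i j h z hz => by
      have := hGpos i.1 i.2.1 z hz
      have := hGpos j.1 j.2.1 z hz
      show (0 : ℝ) ≤ _
      linarith)
  let Y : Equiv.Perm (Fin k) → X := fun γ =>
    if h : γ ∈ (setup X k).T A.c ∧ γ ≠ 1 then y ⟨γ, h⟩ else x
  have hY1 : Y 1 = x := by simp [Y]
  have hYn : ∀ γ (hγ : γ ∈ (setup X k).T A.c) (hne : γ ≠ 1), Y γ = y ⟨γ, hγ, hne⟩ := by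
    intro γ hγ hne
    exact dif_pos ⟨hγ, hne⟩
  have hGLip : ∀ γ ∈ (setup X k).T A.c, ∀ z ∈ A.D, ∀ z' ∈ A.D, G γ z ≤ G γ z' + dist z z' := by
    intro γ hγ z hz z' hz'
    have h1 := act_dist A (inv_mem hγ) hz hz'
    have h2 := dist_triangle x (A.act γ⁻¹ z') (A.act γ⁻¹ z)
    rw [dist_comm (A.act γ⁻¹ z')] at h2
    simp only [G]; linarith
  have hG1 : ∀ z ∈ A.D, G 1 z = dist x z := by
    intro z hz
    simp only [G, inv_one]; rw [A.one z hz]
  obtain ⟨B, hB1, hB2⟩ := orbit_ext A Y G (fun i j => i = j) (fun _ _ => 0)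
    (by
      intro γ hγ z hz
      by_cases hne : γ = 1
      · subst hne; rw [hY1, hG1 z hz]
      · rw [hYn γ hγ hne]
        exact least_base hz (hGLip γ hγ) (hy1 ⟨γ, hγ, hne⟩ z (by simp [hz])))
    hGpos
    (by
      intro γ hγ δ hδ z hz
      simp only [G]
      rw [← A.mul _ (inv_mem (mul_mem hδ hγ)) δ hδ z hz]
      congr 2
      group)
    (by intro γ γ' δ; exact mul_right_inj δ)
    (fun _ _ _ => rfl) (fun _ _ h h' => absurd h' h)
    (by
      intro γ _ γ' _ h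
      have h' : γ = γ' := h
      rw [h', dist_self])
    (by
      intro γ hγ γ' hγ' h
      have h' : γ ≠ γ' := h
      by_cases h1 : γ = 1
      · subst h1
        rw [hY1, hYn γ' hγ' (Ne.symm h'), dist_comm]
        have h2 := hy1 ⟨γ', hγ', Ne.symm h'⟩ x (by simp)
        convert h2 using 1
        ext t
        constructor
        · rintro ⟨z, hz, rfl⟩
          exact ⟨z, hz, by rw [hG1 z hz, add_comm, dist_comm x z]⟩
        · rintro ⟨z, hz, rfl⟩
          exact ⟨z, hz, by rw [hG1 z hz, add_comm, dist_comm x z]⟩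
      · by_cases h2 : γ' = 1
        · subst h2
          rw [hY1, hYn γ hγ h']
          have h2 := hy1 ⟨γ, hγ, h'⟩ x (by simp)
          convert h2 using 1
          ext t
          constructor
          · rintro ⟨z, hz, rfl⟩
            exact ⟨z, hz, by rw [hG1 z hz, dist_comm x z]⟩
          · rintro ⟨z, hz, rfl⟩
            exact ⟨z, hz, by rw [hG1 z hz, dist_comm x z]⟩
        · rw [hYn γ hγ h1, hYn γ' hγ' h2]
          exact hy3 ⟨γ, hγ, h1⟩ ⟨γ', hγ', h2⟩ (fun h => h' (congrArg Subtype.val h)))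
  refine ⟨B, hY1 ▸ hB1, ?_, ?_⟩
  · have := hB2 1 (one_mem _)
    rw [hY1] at this
    exact this
  · intro γ hγ hne hF
    have h1 := hB2 γ hγ
    rw [hY1] at h1
    rw [h1, hYn γ hγ hne] at hF
    obtain ⟨z, hz, h2⟩ := (hy1 ⟨γ, hγ, hne⟩ _ (by simp [hF] : y ⟨γ, hγ, hne⟩ ∈ F ∪ A.D ∪ {x})).1
    rw [dist_self] at h2
    have h3 := hGpos γ hγ z hz
    have h4 := @dist_nonneg _ _ z (y ⟨γ, hγ, hne⟩)
    simp only at h2
    linarith

theorem good_ext2 (hX : UryS X) (hk : 0 < k) (A B : PAct (setup X k))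
    (H : Subgroup (Equiv.Perm (Fin k))) (φ : H →* Equiv.Perm (Fin k))
    (hHA : H ≤ (setup X k).T A.c) (hφB : ∀ h, φ h ∈ (setup X k).T B.c) (hφ : Injective φ)
    (R : Finset X) (τ : X → X) (hRne : R.Nonempty) (hRD : R ⊆ A.D) (hτD : ∀ z ∈ R, τ z ∈ B.D)
    (hτeq : ∀ h : H, ∀ z ∈ R, A.act h z ∈ R ∧ τ (A.act h z) = B.act (φ h) (τ z))
    (hτP : (setup X k).P {p | p.1 ∈ R ∧ p.2 = τ p.1})
    (x : X) (hxD : x ∈ A.D) (hxR : x ∉ R) (hxfree : ∀ h : H, A.act h x = x → h = 1)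
    (F : Finset X) : ∃ (B' : PAct (setup X k)) (y : X), Ext (setup X k) B B' y ∧ B'.act 1 y = y ∧
      (∀ γ ∈ (setup X k).T B.c, B'.act γ y ∉ F) ∧
      (setup X k).P {p | (p.1 ∈ R ∧ p.2 = τ p.1) ∨ ∃ h : H, p = (A.act h x, B'.act (φ h) y)} := by
  have hDne : B.D.Nonempty := ⟨_, B.c_mem ⟨0, hk⟩⟩
  have hτd : ∀ r ∈ R, ∀ r' ∈ R, dist (τ r) (τ r') = dist r r' := fun r hr r' hr' =>
    (hτP (r, τ r) ⟨hr, rfl⟩ (r', τ r') ⟨hr', rfl⟩).symm
  have hH : ∀ h : H, (h : Equiv.Perm (Fin k)) ∈ (setup X k).T A.c := fun h => hHA h.2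
  let G0 : X → ℝ := fun w => R.inf' hRne (fun r => dist x r + dist (τ r) w)
  have G0le : ∀ w, ∀ r ∈ R, G0 w ≤ dist x r + dist (τ r) w := fun w r hr =>
    Finset.inf'_le (fun r => dist x r + dist (τ r) w) hr
  have G0at : ∀ w, ∃ r ∈ R, G0 w = dist x r + dist (τ r) w := fun w =>
    Finset.exists_mem_eq_inf' hRne (fun r => dist x r + dist (τ r) w)
  have G0Lip : ∀ w w', G0 w ≤ G0 w' + dist w w' := by
    intro w w'
    obtain ⟨r, hr, h⟩ := G0at w'
    have h1 := G0le w r hr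
    have h2 := dist_triangle (τ r) w' w
    rw [dist_comm w' w] at h2
    linarith
  have G0tri : ∀ w w', dist w w' ≤ G0 w + G0 w' := by
    intro w w'
    obtain ⟨r, hr, h⟩ := G0at w
    obtain ⟨r', hr', h'⟩ := G0at w'
    have h1 := dist_triangle_left r r' x
    have h2 := hτd r hr r' hr'
    have h3 := dist_triangle4 w (τ r) (τ r') w'
    rw [dist_comm w (τ r)] at h3
    linarith
  have G0pos : ∀ w, 0 < G0 w := by
    intro w
    obtain ⟨r, hr, h⟩ := G0at w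
    have h1 : 0 < dist x r := dist_pos.2 (fun h => hxR (h ▸ hr))
    have h2 := @dist_nonneg _ _ (τ r) w
    linarith
  have G0rat : ∀ w, ∃ q : ℚ, G0 w = q := by
    intro w
    obtain ⟨r, hr, h⟩ := G0at w
    obtain ⟨q1, h1⟩ := hX.rational x r
    obtain ⟨q2, h2⟩ := hX.rational (τ r) w
    exact ⟨q1 + q2, by rw [h, h1, h2]; push_cast; ring⟩
  -- twisting by an element of `H`
  have G0f1 : ∀ h : H, ∀ w ∈ B.D, ∀ r ∈ R,
      G0 (B.act (φ h)⁻¹ w) ≤ dist (A.act h x) r + dist (τ r) w := by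
    intro h w hw r hr
    have h1 := hτeq h⁻¹ r hr
    have hh : ((h⁻¹ : H) : Equiv.Perm (Fin k)) = (h : Equiv.Perm (Fin k))⁻¹ := rfl
    rw [hh, map_inv] at h1
    have h2 := G0le (B.act (φ h)⁻¹ w) _ h1.1
    rw [h1.2, act_dist B (inv_mem (hφB h)) (hτD r hr) hw] at h2
    have h3 : dist x (A.act (h : Equiv.Perm (Fin k))⁻¹ r) = dist (A.act h x) r := by
      rw [← act_dist A (hH h) hxD (A.map_mem _ (inv_mem (hH h)) r (hRD hr)),
        act_act_inv A (hH h) (hRD hr)]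
    rw [h3] at h2
    exact h2
  have G0f2 : ∀ h : H, ∀ w ∈ B.D, ∃ r ∈ R,
      G0 (B.act (φ h)⁻¹ w) = dist (A.act h x) r + dist (τ r) w := by
    intro h w hw
    obtain ⟨r, hr, h1⟩ := G0at (B.act (φ h)⁻¹ w)
    refine ⟨A.act h r, (hτeq h r hr).1, ?_⟩
    rw [h1, (hτeq h r hr).2, act_dist A (hH h) hxD (hRD hr)]
    congr 1
    rw [← act_dist B (hφB h) (hτD r hr) (B.map_mem _ (inv_mem (hφB h)) w hw),
      act_act_inv B (hφB h) hw]
  have G0g1 : ∀ h : H, ∀ w ∈ B.D, G0 w ≤ G0 (B.act (φ h)⁻¹ w) + dist x (A.act h x) := by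
    intro h w hw
    obtain ⟨r, hr, h1⟩ := G0f2 h w hw
    have h2 := G0le w r hr
    have h3 := dist_triangle x (A.act h x) r
    linarith
  have G0g2 : ∀ h : H, ∀ w ∈ B.D, G0 (B.act (φ h)⁻¹ w) ≤ G0 w + dist x (A.act h x) := by
    intro h w hw
    obtain ⟨r, hr, h1⟩ := G0at w
    have h2 := G0f1 h w hw r hr
    have h3 := dist_triangle_left (A.act h x) r x
    linarith
  have G0h : ∀ h : H, ∀ w ∈ B.D, dist x (A.act h x) ≤ G0 w + G0 (B.act (φ h)⁻¹ w) := by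
    intro h w hw
    obtain ⟨r, hr, h1⟩ := G0at w
    obtain ⟨r', hr', h2⟩ := G0f2 h w hw
    have h3 := dist_triangle4 x r r' (A.act h x)
    have h4 := hτd r hr r' hr'
    have h5 := dist_triangle_right (τ r) (τ r') w
    have h6 := dist_comm r' (A.act h x)
    linarith
  have G0i : ∀ r ∈ R, G0 (τ r) = dist x r := by
    intro r hr
    apply le_antisymm
    · have := G0le (τ r) r hr
      rwa [dist_self, add_zero] at this
    · obtain ⟨r', hr', h1⟩ := G0at (τ r)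
      rw [h1, hτd r' hr' r hr]
      exact dist_triangle _ _ _
  -- blocks
  let blk : Equiv.Perm (Fin k) → Equiv.Perm (Fin k) → Prop := fun γ δ => ∃ h : H, δ = γ * φ h
  let E : Equiv.Perm (Fin k) → Equiv.Perm (Fin k) → ℝ := fun γ δ =>
    if h : ∃ h : H, γ⁻¹ * δ = φ h then dist x (A.act h.choose x) else 0
  have hE : ∀ γ (h : H), E γ (γ * φ h) = dist x (A.act h x) := by
    intro γ h
    have hex : ∃ h' : H, γ⁻¹ * (γ * φ h) = φ h' := ⟨h, by group⟩
    have h2 : hex.choose = h := by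
      apply hφ
      rw [← hex.choose_spec]; group
    simp only [E, dif_pos hex]
    rw [h2]
  have hEinv : ∀ γ γ' δ, E (δ * γ) (δ * γ') = E γ γ' := by
    intro γ γ' δ
    have h1 : (δ * γ)⁻¹ * (δ * γ') = γ⁻¹ * γ' := by group
    simp only [E]
    rw [h1]
  have hbinv : ∀ γ γ' δ, blk (δ * γ) (δ * γ') ↔ blk γ γ' := by
    intro γ γ' δ
    constructor
    · rintro ⟨h, hh⟩
      exact ⟨h, by rw [mul_assoc] at hh; exact mul_left_cancel hh⟩
    · rintro ⟨h, hh⟩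
      exact ⟨h, by rw [hh, mul_assoc]⟩
  have actHne : ∀ h : H, A.act h x ∈ A.D := fun h => A.map_mem _ (hH h) x hxD
  have hEpos : ∀ γ γ', γ ≠ γ' → blk γ γ' → 0 < E γ γ' := by
    rintro γ γ' hne ⟨h, rfl⟩
    rw [hE]
    apply dist_pos.2
    intro h1
    have h2 := hxfree h h1.symm
    subst h2
    exact hne (by simp)
  have hA1 : A.act 1 x = x := A.one x hxD
  let G : Equiv.Perm (Fin k) → X → ℝ := fun γ z => G0 (B.act γ⁻¹ z)
  -- the value of G for another member of a block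
  have hGblk : ∀ γ ∈ (setup X k).T B.c, ∀ h : H, ∀ z ∈ B.D,
      G (γ * φ h) z = G0 (B.act (φ h)⁻¹ (B.act γ⁻¹ z)) := by
    intro γ hγ h z hz
    simp only [G]
    rw [mul_inv_rev, B.mul _ (inv_mem (hφB h)) _ (inv_mem hγ) z hz]
  obtain ⟨y, hy1, hy2, hy3⟩ := amalgam hX (F ∪ B.D) B.D hDne
    (by intro z hz; simp [hz]) (J := {γ : Equiv.Perm (Fin k) // γ ∈ (setup X k).T B.c})
    (fun i j => blk i.1 j.1)
    (fun i => ⟨1, by simp⟩)
    (by
      rintro ⟨γ, hγ⟩ ⟨δ, hδ⟩ ⟨h, h1⟩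
      refine ⟨h⁻¹, ?_⟩
      simp only at h1 ⊢
      rw [h1, map_inv]; group)
    (by
      rintro ⟨γ, hγ⟩ ⟨δ, hδ⟩ ⟨ε, hε⟩ ⟨h, h1⟩ ⟨h', h2⟩
      refine ⟨h * h', ?_⟩
      simp only at h1 h2 ⊢
      rw [h2, h1, map_mul]; group)
    (fun i z => G i.1 z) (fun i j => E i.1 j.1)
    (fun i z _ => G0rat _)
    (by
      rintro ⟨γ, hγ⟩ ⟨δ, hδ⟩ ⟨h, h1⟩
      simp only at h1 ⊢
      rw [h1, hE]; exact hX.rational _ _)
    (fun i z _ => G0pos _)
    (fun i z hz z' hz' => by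
      have h1 := act_dist B (inv_mem i.2) hz hz'
      have h2 := G0Lip (B.act i.1⁻¹ z) (B.act i.1⁻¹ z')
      simp only [G]; linarith)
    (fun i z hz z' hz' => by
      have h1 := act_dist B (inv_mem i.2) hz hz'
      have h2 := G0tri (B.act i.1⁻¹ z) (B.act i.1⁻¹ z')
      simp only [G]; linarith)
    (fun i => by
      have := hE i.1 1
      simp only [map_one, mul_one] at this
      rw [this]
      simp [hA1])
    (fun i j hb hne => hEpos _ _ (fun h => hne (Subtype.ext h)) hb)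
    (by
      rintro ⟨γ, hγ⟩ ⟨δ, hδ⟩ ⟨h, h1⟩
      simp only at h1 ⊢
      subst h1
      have h2 : E (γ * φ h) γ = dist x (A.act (h⁻¹ : H) x) := by
        have := hE (γ * φ h) h⁻¹
        rw [map_inv] at this
        simpa using this
      rw [hE, h2]
      have h3 := act_dist A (hH h⁻¹) hxD (actHne h)
      have h4 := act_inv_act A (hH h) hxD
      have h5 : A.act ((h⁻¹ : H) : Equiv.Perm (Fin k)) (A.act h x) = x := h4
      rw [h5] at h3
      rw [← h3, dist_comm])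
    (by
      rintro ⟨γ, hγ⟩ ⟨δ, hδ⟩ ⟨ε, hε⟩ ⟨h, h1⟩ ⟨h', h2⟩
      simp only at h1 h2 ⊢
      subst h1
      subst h2
      have h3 : E γ (γ * φ h * φ h') = dist x (A.act (h * h' : H) x) := by
        have := hE γ (h * h')
        rw [map_mul, ← mul_assoc] at this
        exact this
      rw [h3, hE, hE]
      have h4 : A.act ((h * h' : H) : Equiv.Perm (Fin k)) x = A.act h (A.act h' x) :=
        A.mul _ (hH h) _ (hH h') x hxD
      rw [h4]
      have h5 := act_dist A (hH h) hxD (actHne h')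
      rw [← h5]
      exact dist_triangle _ _ _)
    (by
      rintro ⟨γ, hγ⟩ ⟨δ, hδ⟩ ⟨h, h1⟩ z hz
      simp only at h1 ⊢
      subst h1
      rw [hE, hGblk γ hγ h z hz]
      exact G0g1 h _ (B.map_mem _ (inv_mem hγ) z hz))
    (by
      rintro ⟨γ, hγ⟩ ⟨δ, hδ⟩ ⟨h, h1⟩ z hz
      simp only at h1 ⊢
      subst h1
      rw [hE, hGblk γ hγ h z hz]
      exact G0h h _ (B.map_mem _ (inv_mem hγ) z hz))
  let Y : Equiv.Perm (Fin k) → X := fun γ =>
    if h : γ ∈ (setup X k).T B.c then y ⟨γ, h⟩ else x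
  have hY : ∀ γ (hγ : γ ∈ (setup X k).T B.c), Y γ = y ⟨γ, hγ⟩ := by
    intro γ hγ
    exact dif_pos hγ
  have hGLip : ∀ γ ∈ (setup X k).T B.c, ∀ z ∈ B.D, ∀ z' ∈ B.D, G γ z ≤ G γ z' + dist z z' := by
    intro γ hγ z hz z' hz'
    have h1 := act_dist B (inv_mem hγ) hz hz'
    have h2 := G0Lip (B.act γ⁻¹ z) (B.act γ⁻¹ z')
    simp only [G]; linarith
  have hYG : ∀ γ ∈ (setup X k).T B.c, ∀ z ∈ B.D, dist (Y γ) z = G γ z := by
    intro γ hγ z hz
    rw [hY γ hγ]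
    exact least_base hz (hGLip γ hγ) (hy1 ⟨γ, hγ⟩ z (by simp [hz]))
  obtain ⟨B', hB1, hB2⟩ := orbit_ext B Y G blk E hYG (fun γ _ z _ => G0pos _)
    (by
      intro γ hγ δ hδ z hz
      simp only [G]
      rw [← B.mul _ (inv_mem (mul_mem hδ hγ)) δ hδ z hz]
      congr 2
      group)
    hbinv hEinv hEpos
    (by
      intro γ hγ γ' hγ' hb
      rw [hY γ hγ, hY γ' hγ']
      exact hy2 ⟨γ, hγ⟩ ⟨γ', hγ'⟩ hb)
    (by
      intro γ hγ γ' hγ' hb
      rw [hY γ hγ, hY γ' hγ']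
      exact hy3 ⟨γ, hγ⟩ ⟨γ', hγ'⟩ hb)
  refine ⟨B', Y 1, hB1, hB2 1 (one_mem _), ?_, ?_⟩
  · intro γ hγ hF
    rw [hB2 γ hγ, hY γ hγ] at hF
    obtain ⟨z, hz, h2⟩ := (hy1 ⟨γ, hγ⟩ _ (by simp [hF] : y ⟨γ, hγ⟩ ∈ F ∪ B.D)).1
    rw [dist_self] at h2
    have h3 : 0 < G γ z := G0pos _
    have h4 := @dist_nonneg _ _ z (y ⟨γ, hγ⟩)
    simp only at h2
    linarith
  · have hmix : ∀ r ∈ R, ∀ h : H, dist r (A.act h x) = dist (τ r) (B'.act (φ h) (Y 1)) := by
      intro r hr h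
      rw [hB2 _ (hφB h), dist_comm (τ r), hYG _ (hφB h) _ (hτD r hr)]
      simp only [G]
      have h1 := hτeq h⁻¹ r hr
      have hh : ((h⁻¹ : H) : Equiv.Perm (Fin k)) = (h : Equiv.Perm (Fin k))⁻¹ := rfl
      rw [map_inv] at h1
      rw [← h1.2, G0i _ h1.1, hh, dist_comm,
        ← act_dist A (hH h) hxD (A.map_mem _ (inv_mem (hH h)) r (hRD hr)),
        act_act_inv A (hH h) (hRD hr)]
    have horb : ∀ h h' : H, dist (A.act h x) (A.act h' x) =
        dist (B'.act (φ h) (Y 1)) (B'.act (φ h') (Y 1)) := by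
      intro h h'
      rw [hB2 _ (hφB h), hB2 _ (hφB h'), hY _ (hφB h), hY _ (hφB h'),
        hy2 ⟨φ h, hφB h⟩ ⟨φ h', hφB h'⟩ ⟨h⁻¹ * h', by simp⟩]
      have h1 := hE (φ h) (h⁻¹ * h')
      have h2 : φ h * φ (h⁻¹ * h') = φ h' := by simp
      rw [h2] at h1
      simp only
      rw [h1]
      have h3 : A.act ((h⁻¹ * h' : H) : Equiv.Perm (Fin k)) x =
          A.act ((h⁻¹ : H) : Equiv.Perm (Fin k)) (A.act h' x) := A.mul _ (hH h⁻¹) _ (hH h') x hxD
      rw [h3, ← act_dist A (hH h) hxD (A.map_mem _ (hH h⁻¹) _ (actHne h'))]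
      congr 1
      exact (act_act_inv A (hH h) (actHne h')).symm
    rintro p (⟨hp1, hp2⟩ | ⟨h, rfl⟩) q (⟨hq1, hq2⟩ | ⟨h', rfl⟩)
    · rw [hp2, hq2, hτd _ hp1 _ hq1]
    · rw [hp2]; exact hmix _ hp1 h'
    · rw [hq2, dist_comm, dist_comm _ (τ q.1)]; exact hmix _ hq1 h
    · exact horb h h'

theorem good_fresh (hX : UryS X) (hk : 0 < k) (b : Fin k → X) (hb : Injective b) (F : Finset X) :
    ∃ c : Fin k → X, Injective c ∧ (setup X k).P (tup b c) ∧ ∀ m, c m ∉ F := by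
  let S : Finset X := F ∪ Finset.univ.image b
  have hS : S.Nonempty := ⟨b ⟨0, hk⟩, by simp [S]⟩
  -- a large rational constant
  obtain ⟨L, hL⟩ : ∃ L : ℕ, ∀ s ∈ S, ∀ t ∈ S, dist s t ≤ L := by
    obtain ⟨M, hM⟩ : ∃ M : ℝ, ∀ p ∈ S ×ˢ S, dist p.1 p.2 ≤ M := by
      obtain ⟨p, _, hp2⟩ := Finset.exists_max_image (S ×ˢ S) (fun p => dist p.1 p.2)
        (hS.product hS)
      exact ⟨_, hp2⟩
    obtain ⟨L, hL⟩ := exists_nat_ge M
    exact ⟨L, fun s hs t ht => (hM (s, t) (Finset.mem_product.2 ⟨hs, ht⟩)).trans hL⟩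
  have hbS : ∀ i, b i ∈ S := fun i => by simp [S]
  obtain ⟨y, hy1, hy2, -⟩ := amalgam hX S S hS (fun _ h => h) (J := Fin k)
    (fun _ _ => True) (fun _ => trivial) (fun _ _ _ => trivial) (fun _ _ _ _ _ => trivial)
    (fun _ _ => (L : ℝ) + 1) (fun i j => dist (b i) (b j))
    (fun _ _ _ => ⟨L + 1, by push_cast; ring⟩) (fun _ _ _ => hX.rational _ _)
    (fun _ _ _ => by positivity)
    (fun _ z _ z' _ => by have := @dist_nonneg _ _ z z'; linarith)
    (fun _ z hz z' hz' => by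
      have := hL z hz z' hz'
      have h2 : (0 : ℝ) ≤ L := Nat.cast_nonneg _
      linarith)
    (fun _ => dist_self _) (fun i j _ hne => dist_pos.2 (fun h => hne (hb h)))
    (fun _ _ _ => dist_comm _ _) (fun _ _ _ _ _ => dist_triangle _ _ _)
    (fun i j _ _ _ => by have := @dist_nonneg _ _ (b i) (b j); linarith)
    (fun i j _ _ _ => by
      have := hL _ (hbS i) _ (hbS j)
      have h2 : (0 : ℝ) ≤ L := Nat.cast_nonneg _
      linarith)
  refine ⟨y, ?_, ?_, ?_⟩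
  · intro i j hij
    by_contra hne
    have h1 := hy2 i j trivial
    rw [hij, dist_self] at h1
    exact hne (hb (dist_eq_zero.1 h1.symm))
  · rintro _ ⟨i, rfl⟩ _ ⟨j, rfl⟩
    exact (hy2 i j trivial).symm
  · intro m hm
    obtain ⟨z, hz, h1⟩ := (hy1 m (y m) (by simp [S, hm])).1
    rw [dist_self] at h1
    have h2 := @dist_nonneg _ _ z (y m)
    have h3 : (0 : ℝ) ≤ L := Nat.cast_nonneg _
    linarith

theorem good_twist (A : PAct (setup X k)) (H : Subgroup (Equiv.Perm (Fin k)))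
    (hH : H ≤ (setup X k).T A.c) (b : Fin k → X) (hb : Injective b) (hbD : ∀ m, b m ∈ A.D)
    (hHb : ∀ h ∈ H, ∀ m, A.act h (b m) ∈ Set.range b) (c : Fin k → X) (hc : Injective c)
    (hρ : ∃ ρ : Equiv.Perm (Fin k), (setup X k).P (tup c (b ∘ ρ))) :
    ∃ ρ : Equiv.Perm (Fin k), (setup X k).P (tup c (b ∘ ρ)) ∧
      ∀ h ∈ H, ∃ σ ∈ (setup X k).T c, ∀ m, A.act h (b (ρ m)) = b (ρ (σ m)) := by
  obtain ⟨ρ, hρ⟩ := hρ
  refine ⟨ρ, hρ, fun h hh => ?_⟩
  have hcb : ∀ i j, dist (c i) (c j) = dist (b (ρ i)) (b (ρ j)) := fun i j =>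
    hρ (c i, b (ρ i)) ⟨i, rfl⟩ (c j, b (ρ j)) ⟨j, rfl⟩
  choose s hs using fun m => hHb h hh m
  have hsinj : Injective s := by
    intro i j hij
    have h1 : A.act h (b i) = A.act h (b j) := by rw [← hs i, ← hs j, hij]
    have h2 := congrArg (A.act h⁻¹) h1
    rw [act_inv_act A (hH hh) (hbD i), act_inv_act A (hH hh) (hbD j)] at h2
    exact hb h2
  let sp : Equiv.Perm (Fin k) := Equiv.ofBijective s (Finite.injective_iff_bijective.1 hsinj)
  have hsp : ∀ m, b (sp m) = A.act h (b m) := fun m => hs m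
  have hri : ∀ m, ρ (ρ⁻¹ m) = m := fun m => by simp
  refine ⟨ρ⁻¹ * sp * ρ, ?_, fun m => ?_⟩
  · rw [mem_T]
    intro i j
    rw [hcb, hcb]
    simp only [Equiv.Perm.coe_mul, Function.comp]
    rw [hri, hri, hsp, hsp, act_dist A (hH hh) (hbD _) (hbD _)]
  · simp only [Equiv.Perm.coe_mul, Function.comp]
    rw [hri, hsp]

theorem good_prime (hk3 : k ≤ 3) (γ : Equiv.Perm (Fin k)) (hp : (orderOf γ).Prime) :
    Nat.card {m : Fin k // γ m = m} < orderOf γ := by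
  have hne : γ ≠ 1 := by
    rintro rfl
    rw [orderOf_one] at hp
    exact Nat.not_prime_one hp
  have h2 := hp.two_le
  have h3 : Nat.card {m : Fin k // γ m = m} ≤ 1 := by
    have h4 := Equiv.Perm.two_le_card_support_of_ne_one hne
    rw [Nat.card_eq_fintype_card, Fintype.card_subtype]
    have h5 : (Finset.univ.filter (fun m => γ m = m)).card + γ.support.card = k := by
      have h6 : γ.support = Finset.univ.filter (fun m => ¬ γ m = m) := by
        ext m; simp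
      rw [h6, Finset.card_filter_add_card_filter_not]
      simp
    omega
  omega

/-- the hypotheses of the core theorem hold for the rational Urysohn space and `k = 1, 2, 3` -/
theorem good (hX : UryS X) (hk : 0 < k) (hk3 : k ≤ 3) : Good (setup X k) where
  prime := fun _ _ γ _ hp => good_prime hk3 γ hp
  fresh := good_fresh hX hk
  twist := fun A H hH b hb hbD hHb c hc hρ => good_twist A H hH b hb hbD hHb c hc hρ
  ext1 := fun A x hx F => good_ext1 hX hk A x hx F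
  ext2 := fun A B H φ h1 h2 h3 R τ h4 h5 h6 _ h8 h9 x h10 h11 h12 F =>
    good_ext2 hX hk A B H φ h1 h2 h3 R τ h4 h5 h6 h8 h9 x h10 h11 h12 F

end Pool.Agent.R380.Ury
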